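import Pool.Agent.Y671.LD.SpecH
import Pool.Agent.W148.SDGrow

/-!
# Task GROW for the heat flow of a completed L-function: growth at all scales

Port of `Pool.Agent.W148.SDGrow` to the abstract setting `Pool.Agent.Y671.LD.SpecH`.
-/

set_option autoImplicit false

namespace Pool.Agent.Y175.LD

open Complex Filter Topology MeasureTheory Set
open Pool.Agent.H24R2.JP (Om)
open Pool.Agent.H24R2.DZ (ra NN)
open Pool.Agent.W186.SD (UU NG Grow Std)
open Pool.Agent.Y671.LD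
open Pool.Agent.W148.SDGrow (seg om_close scales ra_mono ineqB ineqC)

/-- the information in `NN` at a point -/
lemma nn_point {F : ℂ → ℂ} (hF : Differentiable ℂ F) {b η Ω ti : ℝ} {r : ℝ} (hr : 0 < r)
    (hb : b = r * Ω)
    (h : NN b η (fun z => F (I * ti + r * z))) (w : ℂ) (h1 : r / 1000 ≤ w.re)
    (h2 : ‖w - I * ti‖ ≤ 20 * r) :
    F w ≠ 0 ∧ ‖logDeriv F w - (Ω : ℂ)‖ ≤ η * Ω := by
  have hrc : (r : ℂ) ≠ 0 := by exact_mod_cast hr.ne'
  set z : ℂ := (w - I * ti) / r with hz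
  have hzw : I * ti + r * z = w := by
    rw [hz]; field_simp; ring
  have hre : 1 / 1000 ≤ z.re := by
    have : z.re = w.re / r := by
      rw [hz, Complex.div_ofReal_re]; simp
    rw [this, le_div_iff₀ hr]; linarith
  have hn : ‖z‖ ≤ 20 := by
    rw [hz, norm_div, Complex.norm_real, Real.norm_of_nonneg hr.le, div_le_iff₀ hr]
    exact h2
  obtain ⟨k1, k2⟩ := h.far z hre hn
  simp only [hzw] at k1
  refine ⟨k1, ?_⟩
  have hder : HasDerivAt (fun z => F (I * ti + r * z)) (deriv F w * r) z := by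
    have h3 : HasDerivAt (fun z : ℂ => I * ti + r * z) (r : ℂ) z := by
      simpa using ((hasDerivAt_id z).const_mul (r : ℂ)).const_add (I * ti)
    have h4 : HasDerivAt F (deriv F w) (I * ti + r * z) := by
      rw [hzw]; exact (hF w).hasDerivAt
    exact h4.comp z h3
  have hl : logDeriv (fun z => F (I * ti + r * z)) z = r * logDeriv F w := by
    rw [logDeriv_apply, hder.deriv, logDeriv_apply, hzw]
    ring
  rw [hl, hb] at k2
  have e : (r : ℂ) * logDeriv F w - ((r * Ω : ℝ) : ℂ) = r * (logDeriv F w - Ω) := by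
    push_cast; ring
  rw [e, norm_mul, Complex.norm_real, Real.norm_of_nonneg hr.le] at k2
  have : r * ‖logDeriv F w - (Ω : ℂ)‖ ≤ r * (η * Ω) := by linarith
  exact le_of_mul_le_mul_left this hr

/-- control of `logDeriv F` between the scales `j` and `J` -/
lemma point {F : ℂ → ℂ} (hFd : Differentiable ℂ F) {R η T a t t' : ℝ} {J j : ℕ}
    (hR : 100 ≤ R) (hη : 0 < η)
    (hΩ : 2 / η + 2 ≤ Om T) (hT : 4 ≤ T) (ha : 1 ≤ a) (hJ1 : ra T (2 ^ J * a) ≤ 1 / 100)
    (hJ2 : 1 / 200 < ra T (2 ^ J * a)) (ht1 : T / 2 ≤ t) (ht2 : t ≤ 3 * T) (hj : j ≤ J)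
    (hL : LocH F η T a j J t) (hTop : TopOK F R η t) (htt : |t - t'| ≤ ra T (2 ^ j * a) / 100)
    (w : ℂ) (h1 : ra T (2 ^ j * a) ≤ w.re) (h2 : w.re ≤ R / 2)
    (h3 : |w.im - t'| ≤ 11 * ra T (2 ^ j * a)) :
    F w ≠ 0 ∧ ‖logDeriv F w - (Om T : ℂ)‖ ≤ 2 * η * Om T := by
  have hT1 : 1 < T := by linarith
  have hlog : 0 < Real.log T := Real.log_pos hT1
  have hOm : 0 < Om T := by unfold Pool.Agent.H24R2.JP.Om; linarith
  have hrj : 0 < ra T (2 ^ j * a) := by unfold Pool.Agent.H24R2.DZ.ra; positivity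
  by_cases hc : w.re ≤ 16 * ra T (2 ^ J * a)
  · obtain ⟨i, i1, i2, i3, i4⟩ := scales hT1 ha hj h1 hc
    obtain ⟨ti, hti, hN⟩ := hL i i1 i2
    have hri : 0 < ra T (2 ^ i * a) := by unfold Pool.Agent.H24R2.DZ.ra; positivity
    have hji := ra_mono hT1 ha i1
    have hb : 2 ^ i * a = ra T (2 ^ i * a) * Om T := by
      unfold Pool.Agent.H24R2.DZ.ra Pool.Agent.H24R2.JP.Om
      field_simp
    have h4 : ‖w - I * ti‖ ≤ 20 * ra T (2 ^ i * a) := by
      have him : |w.im - ti| ≤ 12 * ra T (2 ^ i * a) := by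
        have e : w.im - ti = (w.im - t') + (t' - t) + (t - ti) := by ring
        rw [e]
        have := abs_add_three (w.im - t') (t' - t) (t - ti)
        rw [abs_sub_comm t' t] at this
        linarith
      have hre0 : 0 ≤ w.re := by linarith
      have e1 : (w - I * ti).re = w.re := by simp
      have e2 : (w - I * ti).im = w.im - ti := by simp
      have hs : ‖w - I * ti‖ ^ 2 ≤ (20 * ra T (2 ^ i * a)) ^ 2 := by
        rw [← Complex.normSq_eq_norm_sq, Complex.normSq_apply, e1, e2]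
        have s1 : w.re * w.re ≤ (16 * ra T (2 ^ i * a)) * (16 * ra T (2 ^ i * a)) :=
          mul_le_mul i4 i4 hre0 (by positivity)
        have s2 : (w.im - ti) * (w.im - ti) ≤ (12 * ra T (2 ^ i * a)) ^ 2 := by
          rw [← abs_mul_abs_self (w.im - ti), sq]
          exact mul_le_mul him him (abs_nonneg _) (by positivity)
        nlinarith
      exact le_of_sq_le_sq hs (by positivity)
    obtain ⟨k1, k2⟩ := nn_point hFd hri hb hN w i3 h4
    refine ⟨k1, k2.trans ?_⟩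
    have : 0 < η * Om T := mul_pos hη hOm
    linarith
  · push Not at hc
    obtain ⟨t2, hT2, hF⟩ := hTop
    have hjJ := ra_mono hT1 ha hj
    have e0 : I * (t2 : ℂ) + (w - I * t2) = w := by ring
    have e1 : (w - I * t2).re = w.re := by simp
    have e2 : (w - I * t2).im = w.im - t2 := by simp
    have him : |w.im - t2| ≤ 1 := by
      have e : w.im - t2 = (w.im - t') + (t' - t) + (t - t2) := by ring
      rw [e]
      have := abs_add_three (w.im - t') (t' - t) (t - t2)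
      rw [abs_sub_comm t' t] at this
      linarith
    have hn : ‖w - I * t2‖ ≤ R := by
      have := Complex.norm_le_abs_re_add_abs_im (w - I * t2)
      rw [e1, e2, abs_of_nonneg (by linarith : 0 ≤ w.re)] at this
      linarith
    obtain ⟨k1, k2⟩ := hF (w - I * t2) (by rw [e1]; linarith) hn
    rw [e0] at k1 k2
    refine ⟨k1, ?_⟩
    have ht2' : |Om t2 - Om T| ≤ 1 := by
      rw [abs_le] at hT2
      exact om_close (by linarith) (by linarith [hT2.1, hT2.2]) (by linarith [hT2.1, hT2.2])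
    have e3 : logDeriv F w - (Om T : ℂ) = (logDeriv F w - (Om t2 : ℂ)) + ((Om t2 - Om T : ℝ) : ℂ) := by
      push_cast; ring
    have hfin : η * Om t2 + 1 ≤ 2 * η * Om T := by
      have h5 : Om t2 ≤ Om T + 1 := by linarith [(abs_le.1 ht2').2]
      have h6 : η * Om t2 ≤ η * (Om T + 1) := mul_le_mul_of_nonneg_left h5 hη.le
      have h7 : η * (2 / η + 2) ≤ η * Om T := mul_le_mul_of_nonneg_left hΩ hη.le
      have h8 : η * (2 / η + 2) = 2 + 2 * η := by field_simp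
      linarith
    rw [e3]
    refine (norm_add_le _ _).trans ?_
    rw [Complex.norm_real, Real.norm_eq_abs]
    linarith

lemma plow {F : ℂ → ℂ} (hFd : Differentiable ℂ F) {K K1 R Ω r t' H P : ℝ} (hR : 100 ≤ R)
    (hK1 : 1 ≤ K1) (hKK1 : 2 * K1 ≤ K) (hΩ0 : 0 < Ω)
    (hr0 : 0 < r) (hr1 : r ≤ 1 / 100) (hH0 : 0 ≤ H)
    (hOmt : |Om t' - Ω| ≤ 1)
    (hlow : H * Real.exp ((Om t' - K1) * (R / 2) - K1) ≤ ‖F (I * t' + ((R / 2 : ℝ) : ℂ))‖)
    (hpoint : ∀ w : ℂ, r ≤ w.re → w.re ≤ R / 2 → |w.im - t'| ≤ 11 * r →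
      F w ≠ 0 ∧ ‖logDeriv F w - (Ω : ℂ)‖ ≤ 2 * (1 / 8) * Ω)
    (hP : P = ‖F (I * t' + r)‖) :
    H * Real.exp (-(2 + (1 + K) * (R / 2) + Ω * R / 8) ) ≤ P := by
  have hP0 : 0 ≤ P := by rw [hP]; exact norm_nonneg _
  have s1 := seg (F := F) (M := Ω) (E := 2 * (1 / 8) * Ω) (I * t' + r) ((R / 2 - r : ℝ) : ℂ)
    (fun s hs0 hs1 => by
      have hRr : 0 ≤ R / 2 - r := by linarith
      have e1 : (I * t' + (r : ℂ) + s * ((R / 2 - r : ℝ) : ℂ)).re = r + s * (R / 2 - r) := by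
        simp
      have e2 : (I * t' + (r : ℂ) + s * ((R / 2 - r : ℝ) : ℂ)).im = t' := by
        simp
      obtain ⟨k1, k2⟩ := hpoint (I * t' + (r : ℂ) + s * ((R / 2 - r : ℝ) : ℂ))
        (by rw [e1]; nlinarith) (by rw [e1]; nlinarith)
        (by rw [e2, sub_self, abs_zero]; positivity)
      exact ⟨hFd _, k1, k2⟩)
  have e3 : I * (t' : ℂ) + r + ((R / 2 - r : ℝ) : ℂ) = I * t' + ((R / 2 : ℝ) : ℂ) := by
    push_cast; ring
  have hRr : 0 ≤ R / 2 - r := by linarith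
  rw [e3, Complex.ofReal_re, Complex.norm_real, Real.norm_of_nonneg hRr, ← hP] at s1
  have h9 : H * Real.exp ((Ω - 1 - K1) * (R / 2) - K1) ≤ ‖F (I * t' + ((R / 2 : ℝ) : ℂ))‖ := by
    refine le_trans ?_ hlow
    apply mul_le_mul_of_nonneg_left _ hH0
    apply Real.exp_le_exp.2
    rw [abs_le] at hOmt
    nlinarith [hOmt.1]
  have h10 : ‖F (I * t' + ((R / 2 : ℝ) : ℂ))‖ ≤ P * Real.exp (Ω * R / 2 + Ω * R / 8) := by
    refine s1.trans ?_
    apply mul_le_mul_of_nonneg_left _ hP0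
    apply Real.exp_le_exp.2
    have : 0 < Ω * r := by positivity
    linarith
  have h11 : H * Real.exp ((Ω - 1 - K1) * (R / 2) - K1) * Real.exp (-(Ω * R / 2 + Ω * R / 8)) ≤
      P := by
    calc H * Real.exp ((Ω - 1 - K1) * (R / 2) - K1) * Real.exp (-(Ω * R / 2 + Ω * R / 8))
        ≤ (P * Real.exp (Ω * R / 2 + Ω * R / 8)) * Real.exp (-(Ω * R / 2 + Ω * R / 8)) := by
          exact mul_le_mul_of_nonneg_right (h9.trans h10) (Real.exp_nonneg _)
      _ = P := by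
          rw [mul_assoc, ← Real.exp_add]; simp
  refine le_trans ?_ h11
  rw [mul_assoc, ← Real.exp_add]
  apply mul_le_mul_of_nonneg_left _ hH0
  apply Real.exp_le_exp.2
  have h12 : K1 * R ≤ K * (R / 2) := by nlinarith
  have h13 : K1 ≤ K1 * (R / 2) := by nlinarith
  nlinarith

lemma mainL {F : ℂ → ℂ} (hFd : Differentiable ℂ F) {K K1 K2 R R0 Ω r t' H P τ b : ℝ}
    (hR : 100 ≤ R) (hR0 : R0 ≤ R / 2) (hK1 : 1 ≤ K1) (hKK1 : 2 * K1 ≤ K)
    (hKK2 : K2 ≤ K) (hΩ : 20 * K + 20 ≤ Ω) (hrb : r * Ω = b)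
    (hr0 : 0 < r) (hr1 : r ≤ 1 / 100) (hτ0 : 0 < τ) (hτ1 : τ ≤ 1 / 100)
    (htR : 16 * R ≤ t') (htK : 16 * (11 * K) ^ 4 ≤ t') (hH0 : 0 ≤ H) (hOmt : |Om t' - Ω| ≤ 1)
    (hHup : ∀ u : ℂ, R0 ≤ u.re → ‖u‖ ≤ t' / 8 →
      ‖F (I * t' + u)‖ ≤ H * Real.exp (Om t' * u.re + K1 * (‖u‖ + 1)))
    (hX : ∀ u : ℂ, |u.im| ≤ 21 → t' / 16 ≤ |u.re| →
      ‖F (I * t' + u)‖ ≤ H * Real.exp (K2 * |u.re| ^ (7 / 4 : ℝ)))
    (hpoint : ∀ w : ℂ, r ≤ w.re → w.re ≤ R / 2 → |w.im - t'| ≤ 11 * r →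
      F w ≠ 0 ∧ ‖logDeriv F w - (Ω : ℂ)‖ ≤ 2 * (1 / 8) * Ω)
    (hP : P = ‖F (I * t' + r)‖)
    (hPlow : H * Real.exp (-(2 + (1 + K) * (R / 2) + Ω * R / 8) ) ≤ P) :
    ∀ z : ℂ, |z.im| ≤ 11 → 16 ≤ z.re →
      ‖F (I * t' + r * z)‖ ≤ P * Real.exp (2 * b * z.re +
        r ^ 2 / (4 * τ) / 64 * (z.re - 16) ^ 2) := by
  have hP0 : 0 ≤ P := by rw [hP]; exact norm_nonneg _
  have hK : 1 ≤ K := by linarith
  have hΩ0 : 0 < Ω := by linarith
  intro z hz1 hz2
  have hHP : H ≤ P * Real.exp (2 + (1 + K) * (R / 2) + Ω * R / 8) := by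
    calc H = (H * Real.exp (-(2 + (1 + K) * (R / 2) + Ω * R / 8))) *
          Real.exp (2 + (1 + K) * (R / 2) + Ω * R / 8) := by
            rw [mul_assoc, ← Real.exp_add, neg_add_cancel, Real.exp_zero, mul_one]
      _ ≤ _ := by gcongr
  set u : ℝ := r * z.re with hu
  have hu0 : 0 < u := by
    rw [hu]; exact mul_pos hr0 (by linarith)
  have hmain : 2 * b * z.re = 2 * Ω * u := by
    rw [← hrb, hu]; ring
  have hg : r ^ 2 / (4 * τ) / 64 * (z.re - 16) ^ 2 = (u - 16 * r) ^ 2 / (256 * τ) := by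
    rw [hu]; field_simp; ring
  have hg0 : 0 ≤ (u - 16 * r) ^ 2 / (256 * τ) := by positivity
  rw [hmain, hg]
  have hzim : |r * z.im| ≤ 11 * r := by
    rw [abs_mul, abs_of_pos hr0]; nlinarith
  have hrz : ‖(r : ℂ) * z‖ ≤ u + 1 := by
    have h1 := Complex.norm_le_abs_re_add_abs_im ((r : ℂ) * z)
    have e1 : ((r : ℂ) * z).re = u := by simp [hu]
    have e2 : ((r : ℂ) * z).im = r * z.im := by simp
    rw [e1, e2, abs_of_pos hu0] at h1
    linarith
  rcases le_total u (R / 2) with hc | hc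
  · -- small
    have s1 := seg (F := F) (M := Ω) (E := 2 * (1 / 8) * Ω) (I * t' + r) ((r : ℂ) * (z - 1))
      (fun s hs0 hs1 => by
        have e1 : (I * t' + (r : ℂ) + s * ((r : ℂ) * (z - 1))).re = r + s * (u - r) := by
          simp only [mul_im, I_re, I_im, ofReal_re, ofReal_im, sub_im, sub_re, one_im,
            one_re, mul_re, add_re, hu]
          ring
        have e2 : (I * t' + (r : ℂ) + s * ((r : ℂ) * (z - 1))).im = t' + s * (r * z.im) := by
          simp only [add_im, mul_im, I_re, I_im, ofReal_re, ofReal_im, sub_im, sub_re, one_im,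
            one_re, mul_re]
          ring
        have hur : 0 ≤ u - r := by rw [hu]; nlinarith
        obtain ⟨k1, k2⟩ := hpoint (I * t' + (r : ℂ) + s * ((r : ℂ) * (z - 1)))
          (by rw [e1]; nlinarith) (by rw [e1]; nlinarith)
          (by
            rw [e2, add_sub_cancel_left, abs_mul, abs_of_nonneg hs0]
            nlinarith [abs_nonneg (r * z.im)])
        exact ⟨hFd _, k1, k2⟩)
    have e3 : I * (t' : ℂ) + r + ((r : ℂ) * (z - 1)) = I * t' + r * z := by ring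
    have e4 : ((r : ℂ) * (z - 1)).re = u - r := by simp [hu]; ring
    have e5 : ‖(r : ℂ) * (z - 1)‖ ≤ 2 * u := by
      have h1 := Complex.norm_le_abs_re_add_abs_im ((r : ℂ) * (z - 1))
      have e6 : ((r : ℂ) * (z - 1)).im = r * z.im := by simp
      have hur : 0 ≤ u - r := by rw [hu]; nlinarith
      rw [e4, e6, abs_of_nonneg hur] at h1
      have : 16 * r ≤ u := by rw [hu]; nlinarith
      linarith
    rw [e3, e4, ← hP] at s1
    refine s1.trans ?_
    apply mul_le_mul_of_nonneg_left _ hP0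
    apply Real.exp_le_exp.2
    have h1 : 2 * (1 / 8) * Ω * ‖(r : ℂ) * (z - 1)‖ ≤ 2 * (1 / 8) * Ω * (2 * u) := by gcongr
    have h2 : 0 < Ω * r := by positivity
    have h3 : 0 < Ω * u := by positivity
    linarith
  rcases le_total u (t' / 16) with hc2 | hc2
  · -- middle
    have ht16 : 1 ≤ t' / 16 := by linarith
    have e1 : ((r : ℂ) * z).re = u := by simp [hu]
    have b2 := hHup ((r : ℂ) * z) (by rw [e1]; linarith) (by linarith)
    rw [e1] at b2
    have b6 : Real.exp (Om t' * u + K1 * (‖(r : ℂ) * z‖ + 1)) ≤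
        Real.exp ((Ω + 1) * u + K * (u + 1)) := by
      apply Real.exp_le_exp.2
      have h1 : Om t' * u ≤ (Ω + 1) * u := by
        apply mul_le_mul_of_nonneg_right _ hu0.le
        rw [abs_le] at hOmt
        linarith [hOmt.2]
      have h2 : K1 * (‖(r : ℂ) * z‖ + 1) ≤ K1 * (2 * (u + 1)) := by
        apply mul_le_mul_of_nonneg_left _ (by linarith)
        linarith
      have h3 : K1 * (2 * (u + 1)) ≤ K * (u + 1) := by nlinarith
      linarith
    calc ‖F (I * t' + r * z)‖ ≤ H * Real.exp ((Ω + 1) * u + K * (u + 1)) :=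
          b2.trans (by gcongr)
      _ ≤ (P * Real.exp (2 + (1 + K) * (R / 2) + Ω * R / 8)) *
          Real.exp ((Ω + 1) * u + K * (u + 1)) := by gcongr
      _ = P * Real.exp (2 + (1 + K) * (R / 2) + Ω * R / 8 + ((Ω + 1) * u + K * (u + 1))) := by
          rw [mul_assoc, ← Real.exp_add]
      _ ≤ _ := by
          apply mul_le_mul_of_nonneg_left _ hP0
          apply Real.exp_le_exp.2
          have := ineqB hK hR hΩ hc
          linarith
  · -- large
    have b2 := hX ((r : ℂ) * z) (by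
      have e2 : ((r : ℂ) * z).im = r * z.im := by simp
      rw [e2]; linarith)
    have e1 : ((r : ℂ) * z).re = u := by simp [hu]
    rw [e1, abs_of_pos hu0] at b2
    have b3 := b2 hc2
    have hu100 : 100 ≤ u := by linarith
    calc ‖F (I * t' + r * z)‖ ≤ H * Real.exp (K2 * u ^ (7 / 4 : ℝ)) := b3
      _ ≤ (P * Real.exp (2 + (1 + K) * (R / 2) + Ω * R / 8)) *
          Real.exp (K * u ^ (7 / 4 : ℝ)) := by gcongr
      _ = P * Real.exp (2 + (1 + K) * (R / 2) + Ω * R / 8 + K * u ^ (7 / 4 : ℝ)) := by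
          rw [mul_assoc, ← Real.exp_add]
      _ ≤ _ := by
          apply mul_le_mul_of_nonneg_left _ hP0
          apply Real.exp_le_exp.2
          exact ineqC hK hR hΩ hc hτ0 hτ1 (by linarith) (by linarith)

theorem grow : SH_GROW := by
  intro B F FT h hd
  obtain ⟨Ra, K1, hRa, hK1, hlowr⟩ := hd.lowr
  obtain ⟨Rb, K3, T3, hRb, hK3, hT3, hright⟩ := hd.right
  obtain ⟨K2, T2, hK2, hT2, hup⟩ := hd.up
  set R : ℝ := 2 * (Ra + Rb) + 100 with hRdef
  have hR : 100 ≤ R := by linarith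
  obtain ⟨T1, hT1, hlow⟩ := hlowr (R / 2) (by linarith)
  set K : ℝ := 2 * (K1 + K2 + K3) with hKdef
  have hK : 1 ≤ K := by linarith
  set S : ℝ := T1 + T2 + T3 + 16 * (11 * K) ^ 4 + 16 * R + 10 with hSdef
  have hS1 : T1 ≤ S ∧ T2 ≤ S ∧ T3 ≤ S ∧ 16 * (11 * K) ^ 4 ≤ S ∧ 16 * R ≤ S ∧ 10 ≤ S := by
    have h2 : 0 ≤ 16 * (11 * K) ^ 4 := by positivity
    refine ⟨?_, ?_, ?_, ?_, ?_, ?_⟩ <;> linarith
  refine ⟨R, 1 / 8, 1 / 50, Real.exp (40 * K + 40) + 2 * S + 2, by linarith, by norm_num,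
    by norm_num, ?_, ?_⟩
  · have := Real.exp_pos (40 * K + 40)
    linarith [hS1.2.2.2.2.2]
  intro T τ a t t' J j hT ha hStd ht1 ht2 hj hL hTop htt hN
  have hexp := Real.exp_pos (40 * K + 40)
  have hTS : S ≤ T / 2 - 1 := by linarith
  have hT4 : 4 ≤ T := by linarith [hS1.2.2.2.2.2]
  have hT1' : 1 < T := by linarith
  have hlog : 0 < Real.log T := Real.log_pos hT1'
  have hΩ : 20 * K + 20 ≤ Om T := by
    unfold Pool.Agent.H24R2.JP.Om
    have : 40 * K + 40 ≤ Real.log T := by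
      rw [Real.le_log_iff_exp_le (by linarith)]
      linarith [hS1.2.2.2.2.2]
    linarith
  set Ω : ℝ := Om T with hΩdef
  have hΩ0 : 0 < Ω := by linarith
  have hra : ∀ i : ℕ, ra T (2 ^ i * a) * Ω = 2 ^ i * a := fun i => by
    rw [hΩdef]
    unfold Pool.Agent.H24R2.DZ.ra Pool.Agent.H24R2.JP.Om
    field_simp
  have hlogΩ : Real.log T = 2 * Ω := by rw [hΩdef]; unfold Pool.Agent.H24R2.JP.Om; ring
  have hJ1 : ra T (2 ^ J * a) ≤ 1 / 100 := by
    have h1 := hStd.top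
    rw [hlogΩ, ← hra J] at h1
    have h2 : ra T (2 ^ J * a) * Ω ≤ 1 / 100 * Ω := by linarith
    exact le_of_mul_le_mul_right h2 hΩ0
  have hJ2 : 1 / 200 < ra T (2 ^ J * a) := by
    have h1 := hStd.top'
    rw [hlogΩ, pow_succ] at h1
    have h3 := hra J
    have h2 : 1 / 200 * Ω < ra T (2 ^ J * a) * Ω := by linarith
    exact lt_of_mul_lt_mul_right h2 hΩ0.le
  have hjJ := ra_mono hT1' ha hj
  set r : ℝ := ra T (2 ^ j * a) with hr
  have hr0 : 0 < r := by rw [hr]; unfold Pool.Agent.H24R2.DZ.ra; positivity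
  have hr1 : r ≤ 1 / 100 := hjJ.trans hJ1
  have hrΩ : r * Ω = 2 ^ j * a := hra j
  have hτ0 := hStd.tau
  have hτ1 : τ ≤ 1 / 100 := by
    have h1 := hStd.small
    rw [hStd.a_eq, ← hΩdef] at h1
    have h2 : (2 * τ * Ω) * Ω ≤ (1 / 50) * Ω := by nlinarith
    have h3 := le_of_mul_le_mul_right h2 hΩ0
    nlinarith
  have htt' : |t - t'| ≤ 1 / 100 := by
    refine htt.trans ?_
    linarith
  have htp1 : T / 2 - 1 ≤ t' := by
    rw [abs_le] at htt'; linarith [htt'.2]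
  have htp2 : t' ≤ 3 * T + 1 := by
    rw [abs_le] at htt'; linarith [htt'.1]
  have htS : S ≤ t' := hTS.trans htp1
  have hOmt : |Om t' - Ω| ≤ 1 := om_close (by linarith) (by linarith) (by linarith)
  have hpoint : ∀ w : ℂ, r ≤ w.re → w.re ≤ R / 2 → |w.im - t'| ≤ 11 * r →
      F w ≠ 0 ∧ ‖logDeriv F w - (Ω : ℂ)‖ ≤ 2 * (1 / 8) * Ω := fun w w1 w2 w3 =>
    point hd.diff hR (by norm_num) (by rw [← hΩdef]; norm_num; linarith) hT4 ha hJ1 hJ2 ht1 ht2 hj
      hL hTop htt w w1 w2 w3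
  set P : ℝ := ‖F (I * t' + r)‖ with hP
  have hH0 : 0 ≤ h t' := (hd.h_pos t').le
  -- lower bound for `P`
  have hPlow : h t' * Real.exp (-(2 + (1 + K) * (R / 2) + Ω * R / 8) ) ≤ P :=
    plow hd.diff hR hK1 (by linarith) hΩ0 hr0 hr1 hH0 hOmt (hlow t' (hS1.1.trans htS)) hpoint hP
  have main := mainL (K1 := K3) (K2 := K2) (R0 := Rb) hd.diff hR (by linarith) hK3
    (by linarith) (by linarith) hΩ hrΩ hr0 hr1 hτ0 hτ1 (hS1.2.2.2.2.1.trans htS)
    (hS1.2.2.2.1.trans htS) hH0 hOmt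
    (fun u hu1 hu2 => hright t' u (hS1.2.2.1.trans htS) hu1 hu2)
    (fun u hu1 hu2 => (hup t' u (hS1.2.1.trans htS) hu1).2 hu2) hpoint hP hPlow
  intro z hz1 hz2
  rcases le_total 0 z.re with h | h
  · rw [abs_of_nonneg h] at hz2 ⊢
    simp only [mul_one]
    exact main z hz1 hz2
  · rw [abs_of_nonpos h] at hz2 ⊢
    have h2 : F (I * t' + r * (-((starRingEnd ℂ) z))) = (starRingEnd ℂ) (F (I * t' + r * z)) :=
      hN.symm z
    have h3 : ‖F (I * t' + r * z)‖ = ‖F (I * t' + r * (-((starRingEnd ℂ) z)))‖ := by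
      rw [h2, Complex.norm_conj]
    simp only [mul_one]
    rw [h3]
    have h4 := main (-((starRingEnd ℂ) z)) (by simpa using hz1) (by simpa using hz2)
    simpa using h4

end Pool.Agent.Y175.LD
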